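import Pool.Agent.COSB.StmtsA

/-!
# COSB, row WOC: words of coordinates
-/

set_option autoImplicit false

namespace Pool.Agent.COSB.H35

open Turing Computability Pool.Agent.UT.Num Pool.Agent.H2XG Pool.Agent.PAR Pool.Agent.COS
open Pool.Agent.COSB

theorem r_lt {n : ℕ} (i j : Fin n) : (i : ℕ) * n + j < n * n := by
  have hi := i.2
  have hj := j.2
  have h1 : ((i : ℕ) + 1) * n ≤ n * n := Nat.mul_le_mul_right n hi
  have h2 : ((i : ℕ) + 1) * n = (i : ℕ) * n + n := by ring
  omega

theorem idx_lt {n k b : ℕ} (hb : b < k) (i j : Fin n) :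
    b * (n * n) + ((i : ℕ) * n + j) < k * (n * n) := by
  have h1 := r_lt i j
  have h2 : (b + 1) * (n * n) ≤ k * (n * n) := Nat.mul_le_mul_right _ hb
  have h3 : (b + 1) * (n * n) = b * (n * n) + n * n := by ring
  omega

theorem div_r {n : ℕ} (i j : Fin n) : ((i : ℕ) * n + j) / n = i := by
  have hn : 0 < n := lt_of_le_of_lt (Nat.zero_le _) j.2
  rw [Nat.mul_comm, Nat.mul_add_div hn, Nat.div_eq_of_lt j.2, Nat.add_zero]

theorem mod_r {n : ℕ} (i j : Fin n) : ((i : ℕ) * n + j) % n = j := by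
  rw [Nat.mul_comm, Nat.mul_add_mod, Nat.mod_eq_of_lt j.2]

theorem crd_idx {n k b : ℕ} (hb : b < k) (A : Matrix (Fin n) (Fin n) (ZMod (2 ^ k)))
    (i j : Fin n) : crd k A ⟨b * (n * n) + ((i : ℕ) * n + j), idx_lt hb i j⟩ =
      (A i j).val.testBit b := by
  have hr := r_lt i j
  have hnn : 0 < n * n := lt_of_le_of_lt (Nat.zero_le _) hr
  have e1 : (b * (n * n) + ((i : ℕ) * n + j)) / (n * n) = b := by
    rw [Nat.mul_comm b, Nat.mul_add_div hnn, Nat.div_eq_of_lt hr, Nat.add_zero]
  have e2 : (b * (n * n) + ((i : ℕ) * n + j)) % (n * n) = (i : ℕ) * n + j := by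
    rw [Nat.mul_comm b, Nat.mul_add_mod, Nat.mod_eq_of_lt hr]
  unfold crd
  have e3 : (Fin.divNat (m := k) (n := n * n)
      ⟨b * (n * n) + ((i : ℕ) * n + j), idx_lt hb i j⟩ : ℕ) = b := e1
  have e4 : (Fin.divNat (m := n) (n := n) (Fin.modNat (m := k) (n := n * n)
      ⟨b * (n * n) + ((i : ℕ) * n + j), idx_lt hb i j⟩)) = i := by
    apply Fin.ext
    show (b * (n * n) + ((i : ℕ) * n + j)) % (n * n) / n = i
    rw [e2, div_r]
  have e5 : (Fin.modNat (m := n) (n := n) (Fin.modNat (m := k) (n := n * n)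
      ⟨b * (n * n) + ((i : ℕ) * n + j), idx_lt hb i j⟩)) = j := by
    apply Fin.ext
    show (b * (n * n) + ((i : ℕ) * n + j)) % (n * n) % n = j
    rw [e2, mod_r]
  rw [e3, e4, e5]

theorem idx_all {n k : ℕ} (t : Fin (k * (n * n))) : ∃ (b : ℕ) (hb : b < k) (i j : Fin n),
    t = ⟨b * (n * n) + ((i : ℕ) * n + j), idx_lt hb i j⟩ := by
  refine ⟨t.divNat, t.divNat.2, t.modNat.divNat, t.modNat.modNat, ?_⟩
  apply Fin.ext
  show (t : ℕ) = (t : ℕ) / (n * n) * (n * n) +
    ((t : ℕ) % (n * n) / n * n + (t : ℕ) % (n * n) % n)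
  rw [Nat.div_add_mod' ((t : ℕ) % (n * n)) n, Nat.div_add_mod' (t : ℕ) (n * n)]

theorem getD_ofFn {N : ℕ} (y : Fin N → Bool) (r : ℕ) (hr : r < N) :
    (List.ofFn y).getD r false = y ⟨r, hr⟩ := by
  rw [List.getD_eq_getElem?_getD, List.getElem?_ofFn, dif_pos hr]
  rfl

theorem gC_bit {n k : ℕ} (w : Word) (i j b : ℕ) : (gC n k w i j).testBit b =
    if b < k then w.getD (b * (n * n) + (i * n + j)) false else false := by
  unfold gC
  rw [LATM.testBit_nval, List.getD_eq_getElem?_getD, List.getElem?_map]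
  by_cases hb : b < k
  · rw [if_pos hb, List.getElem?_range hb]
    rfl
  · rw [if_neg hb, List.getElem?_eq_none (by simpa using hb)]
    rfl

theorem gC_lt {n k : ℕ} (w : Word) (i j : ℕ) : gC n k w i j < 2 ^ k := by
  unfold gC
  refine lt_of_lt_of_eq (LATM.nval_lt _) ?_
  simp

theorem val_bit {k : ℕ} (a : ZMod (2 ^ k)) {b : ℕ} (hb : ¬ b < k) : a.val.testBit b = false := by
  haveI : NeZero (2 ^ k) := ⟨by positivity⟩
  apply Nat.testBit_lt_two_pow
  exact lt_of_lt_of_le (ZMod.val_lt a) (Nat.pow_le_pow_right (by norm_num) (by omega))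

theorem gC_crd {n k : ℕ} (A : Matrix (Fin n) (Fin n) (ZMod (2 ^ k))) (i j : Fin n) :
    gC n k (List.ofFn (crd k A)) i j = (A i j).val := by
  apply Nat.eq_of_testBit_eq
  intro b
  rw [gC_bit]
  by_cases hb : b < k
  · rw [if_pos hb, getD_ofFn _ _ (idx_lt hb i j), crd_idx hb]
  · rw [if_neg hb, val_bit _ hb]

theorem rd_one {n k : ℕ} (A : Matrix (Fin n) (Fin n) (ZMod (2 ^ k))) (i j : Fin n) :
    (rd A i j = 1 ↔ (A i j).val.testBit 0 = true) ∧
      (rd A i j = 0 ↔ (A i j).val.testBit 0 = false) := by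
  have e : rd A i j = (((A i j).val : ℕ) : ZMod 2) := rfl
  have h0 : ((A i j).val).testBit 0 = decide ((A i j).val % 2 = 1) := Nat.testBit_zero _
  rw [e, h0]
  have h1 : (((A i j).val : ℕ) : ZMod 2) = ((((A i j).val) % 2 : ℕ) : ZMod 2) := by
    rw [ZMod.natCast_mod]
  rw [h1]
  rcases Nat.mod_two_eq_zero_or_one (A i j).val with h | h
  · rw [h]
    simp
  · rw [h]
    simp

/-- ROW WOC -/
theorem woc : WocStmt := by
  intro n k hk
  haveI : NeZero (2 ^ k) := ⟨by positivity⟩
  refine ⟨?_, ?_, ?_, ?_, ?_⟩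
  · intro A B h
    ext i j
    apply ZMod.val_injective
    rw [← gC_crd A i j, ← gC_crd B i j, h]
  · intro y
    refine ⟨fun i j => ((gC n k (List.ofFn y) i j : ℕ) : ZMod (2 ^ k)), ?_⟩
    funext t
    obtain ⟨b, hb, i, j, rfl⟩ := idx_all t
    rw [crd_idx hb, ZMod.val_natCast, Nat.mod_eq_of_lt (gC_lt _ _ _), gC_bit, if_pos hb,
      getD_ofFn _ _ (idx_lt hb i j)]
  · intro A i j
    rw [gC_crd, ZMod.natCast_zmod_val]
  · intro A
    have hg : ∀ i j : Fin n, gt n (List.ofFn (crd k A)) i j = (A i j).val.testBit 0 := by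
      intro i j
      unfold gt
      have h1 := idx_lt (b := 0) (k := k) (by omega) i j
      have h2 : (i : ℕ) * n + j = 0 * (n * n) + ((i : ℕ) * n + j) := by ring
      rw [h2, getD_ofFn _ _ h1, crd_idx (by omega)]
    unfold uniW IsUni
    rw [decide_eq_true_eq]
    constructor
    · intro h
      refine ⟨fun i => ?_, fun i j hji => ?_⟩
      · have h1 := h i i.2
        rw [Bool.and_eq_true] at h1
        rw [(rd_one A i i).1, ← hg]
        exact h1.1
      · have h1 := h i i.2
        rw [Bool.and_eq_true, decide_eq_true_eq] at h1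
        have h2 := h1.2 j j.2
        rw [Bool.or_eq_true] at h2
        rw [(rd_one A i j).2, ← hg]
        rcases h2 with h2 | h2
        · exfalso
          simp only [Bool.not_eq_true', decide_eq_false_iff_not] at h2
          exact h2 hji
        · simpa using h2
    · rintro ⟨h1, h2⟩ i hi
      rw [Bool.and_eq_true, decide_eq_true_eq]
      refine ⟨?_, fun j hj => ?_⟩
      · have h3 := hg ⟨i, hi⟩ ⟨i, hi⟩
        have h4 := (rd_one A ⟨i, hi⟩ ⟨i, hi⟩).1.1 (h1 _)
        rw [h4] at h3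
        exact h3
      · rw [Bool.or_eq_true]
        by_cases hji : j < i
        · right
          have h3 := hg ⟨i, hi⟩ ⟨j, hj⟩
          have h4 := (rd_one A ⟨i, hi⟩ ⟨j, hj⟩).2.1 (h2 _ _ hji)
          rw [h4] at h3
          have h5 : gt n (List.ofFn (crd k A)) i j = false := h3
          rw [h5]
          rfl
        · left
          simp [hji]
  · intro a i j
    have hg : gt n (enc a) i j = decide (a i j = 1) := by
      unfold gt enc
      rw [getD_ofFn _ _ (r_lt i j)]
      unfold ent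
      have e4 : (Fin.divNat (m := n) (n := n) ⟨(i : ℕ) * n + j, r_lt i j⟩) = i := by
        apply Fin.ext
        exact div_r i j
      have e5 : (Fin.modNat (m := n) (n := n) ⟨(i : ℕ) * n + j, r_lt i j⟩) = j := by
        apply Fin.ext
        exact mod_r i j
      rw [e4, e5]
    unfold gO up
    rw [hg, Matrix.map_apply]
    have hz : a i j = 0 ∨ a i j = 1 := by
      generalize a i j = z
      revert z
      decide
    rcases hz with h | h
    · rw [h]
      have e1 : decide ((0 : ZMod 2) = 1) = false := by decide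
      have e2 : (0 : ZMod 2).val = 0 := rfl
      rw [e1, e2]
      rfl
    · rw [h]
      have e1 : decide ((1 : ZMod 2) = 1) = true := by decide
      have e2 : (1 : ZMod 2).val = 1 := rfl
      rw [e1, e2]
      rfl

end Pool.Agent.COSB.H35
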